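import Mathlib

set_option autoImplicit false

/-!
Vanishing of the character sums attached to the two elliptic curves
`y² = x(x² + 21x + 112)` and `y² = x(x² + 42x - 7)` for primes `p` with `-7` a nonsquare.
-/

namespace Pool.Agent.Lib.MP_3ec6ae_nt

open Polynomial Finset

/-- The coefficient of `X ^ N` in `(X² + aX + b) ^ N`. -/
noncomputable def A {R : Type*} [CommRing R] (N : ℕ) (a b : R) : R :=
  ∑ k ∈ range (N + 1), ((N.choose (2 * k) * (2 * k).choose k : ℕ) : R) * a ^ (N - 2 * k) * b ^ k

lemma coeff_X_sq_add_C_pow {R : Type*} [CommRing R] (b : R) (j k : ℕ) :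
    ((X ^ 2 + C b) ^ j : R[X]).coeff k =
      if k % 2 = 0 then ((j.choose (k / 2) : ℕ) : R) * b ^ (j - k / 2) else 0 := by
  rw [add_pow, finsetSum_coeff]
  have h1 : ∀ m ∈ range (j + 1),
      ((X ^ 2) ^ m * (C b) ^ (j - m) * ((j.choose m : ℕ) : R[X]) : R[X]).coeff k =
        if k = 2 * m then ((j.choose m : ℕ) : R) * b ^ (j - m) else 0 := by
    intro m _
    rw [← pow_mul, ← C_pow, ← C_eq_natCast, mul_assoc, ← C_mul, mul_comm (X ^ (2 * m)),
      coeff_C_mul, coeff_X_pow]
    split_ifs <;> ring
  rw [Finset.sum_congr rfl h1]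
  split_ifs with h
  · by_cases hk : k / 2 ∈ range (j + 1)
    · rw [Finset.sum_eq_single_of_mem (k / 2) hk]
      · rw [if_pos (by omega)]
      · intro m _ hm
        rw [if_neg (by omega)]
    · rw [Finset.sum_eq_zero]
      · rw [Finset.mem_range, not_lt] at hk
        rw [Nat.choose_eq_zero_of_lt (by omega)]
        simp
      · intro m hm
        rw [Finset.mem_range] at hm hk
        rw [if_neg (by omega)]
  · rw [Finset.sum_eq_zero]
    intro m _
    rw [if_neg (by omega)]

lemma coeff_quad_pow {R : Type*} [CommRing R] (N : ℕ) (a b : R) :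
    ((X ^ 2 + C a * X + C b) ^ N : R[X]).coeff N = A N a b := by
  have h0 : (X ^ 2 + C a * X + C b : R[X]) = (X ^ 2 + C b) + C a * X := by ring
  rw [h0, add_pow, finsetSum_coeff]
  have h1 : ∀ m ∈ range (N + 1),
      ((X ^ 2 + C b) ^ m * (C a * X) ^ (N - m) * ((N.choose m : ℕ) : R[X]) : R[X]).coeff N =
        if m % 2 = 0 then ((N.choose m * m.choose (m / 2) : ℕ) : R) * a ^ (N - m) * b ^ (m / 2)
          else 0 := by
    intro m hm
    rw [Finset.mem_range] at hm
    have h2 : ((X ^ 2 + C b) ^ m * (C a * X) ^ (N - m) * ((N.choose m : ℕ) : R[X]) : R[X]) =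
        C (a ^ (N - m) * ((N.choose m : ℕ) : R)) * (X ^ 2 + C b) ^ m * X ^ (N - m) := by
      rw [mul_pow, C_mul, C_pow, C_eq_natCast]
      ring
    have h3 : N = m + (N - m) := by omega
    rw [h2]
    conv_lhs => rw [show N = m + (N - m) by omega]
    rw [show m + (N - m) - m = N - m by omega, coeff_mul_X_pow, coeff_C_mul, coeff_X_sq_add_C_pow]
    rw [show m + (N - m) = N by omega]
    split_ifs with h
    · rw [show m - m / 2 = m / 2 by omega]
      push_cast
      ring
    · ring
  rw [Finset.sum_congr rfl h1, A]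
  -- reindex even m = 2k
  rw [← Finset.sum_filter]
  have h4 : ∑ k ∈ range (N + 1), ((N.choose (2 * k) * (2 * k).choose k : ℕ) : R)
        * a ^ (N - 2 * k) * b ^ k =
      ∑ k ∈ (range (N + 1)).filter (fun k => 2 * k ≤ N),
        ((N.choose (2 * k) * (2 * k).choose k : ℕ) : R) * a ^ (N - 2 * k) * b ^ k := by
    rw [Finset.sum_filter]
    apply Finset.sum_congr rfl
    intro k _
    split_ifs with h
    · rfl
    · rw [Nat.choose_eq_zero_of_lt (by omega : N < 2 * k)]
      simp
  rw [h4]
  symm
  apply Finset.sum_bij (fun k _ => 2 * k)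
  · intro k hk
    simp only [Finset.mem_filter, Finset.mem_range] at hk ⊢
    omega
  · intro k1 _ k2 _ h
    omega
  · intro m hm
    simp only [Finset.mem_filter, Finset.mem_range] at hm
    refine ⟨m / 2, ?_, ?_⟩
    · simp only [Finset.mem_filter, Finset.mem_range]
      omega
    · omega
  · intro k _
    rw [show 2 * k / 2 = k by omega]

/-- `(X(X² + aX + b))^N` has coefficient `A N a b` at `X^(2N)`. -/
lemma coeff_cubic_pow {R : Type*} [CommRing R] (N : ℕ) (a b : R) :
    ((X * (X ^ 2 + C a * X + C b)) ^ N : R[X]).coeff (2 * N) = A N a b := by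
  rw [mul_pow, mul_comm, two_mul, coeff_mul_X_pow, coeff_quad_pow]

lemma map_A {R S : Type*} [CommRing R] [CommRing S] (f : R →+* S) (N : ℕ) (a b : R) :
    f (A N a b) = A N (f a) (f b) := by
  simp [A, map_sum]


/-! ### Translation invariance -/

lemma coeff_comp_X_add_C {K : Type*} [Field K] (p : ℕ) [Fact p.Prime] [CharP K p] (h : K[X])
    (hd : h.natDegree < 2 * p - 1) (r : K) :
    (h.comp (X + C r)).coeff (p - 1) = h.coeff (p - 1) := by
  have hp : p.Prime := Fact.out
  have hp2 : 2 ≤ p := hp.two_le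
  rw [← taylor_apply, taylor_coeff]
  have : hasseDeriv (p - 1) h = C (h.coeff (p - 1)) := by
    ext m
    rw [hasseDeriv_coeff, coeff_C]
    split_ifs with hm
    · subst hm
      simp
    · by_cases hm2 : h.coeff (m + (p - 1)) = 0
      · rw [hm2, mul_zero]
      · have h1 : m + (p - 1) ≤ h.natDegree := le_natDegree_of_ne_zero hm2
        have h2 : (((m + (p - 1)).choose (p - 1) : ℕ) : K) = 0 := by
          rw [CharP.cast_eq_zero_iff K p]
          have h3 := Choose.choose_modEq_choose_mod_mul_choose_div_nat (n := m + (p - 1))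
            (k := p - 1) (p := p)
          have h4 : (m + (p - 1)) % p = m - 1 := by
            have : m + (p - 1) = (m - 1) + p := by omega
            rw [this, Nat.add_mod_right, Nat.mod_eq_of_lt (by omega)]
          have h5 : (p - 1) % p = p - 1 := Nat.mod_eq_of_lt (by omega)
          rw [h4, h5, Nat.choose_eq_zero_of_lt (by omega : m - 1 < p - 1), zero_mul] at h3
          exact (Nat.modEq_zero_iff_dvd).mp h3
        rw [h2, zero_mul]
  rw [this, eval_C]

/-! ### Power sums -/

lemma sum_pow_card_sub_one (p : ℕ) [Fact p.Prime] (i : ℕ) (hi : i < 2 * (p - 1)) :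
    ∑ x : ZMod p, x ^ i = if i = p - 1 then -1 else 0 := by
  have hp : p.Prime := Fact.out
  have hp2 : 2 ≤ p := hp.two_le
  have hcard : Fintype.card (ZMod p) = p := ZMod.card p
  by_cases h : i < p - 1
  · rw [if_neg (by omega)]
    apply FiniteField.sum_pow_lt_card_sub_one
    rw [hcard]; exact h
  · have hi0 : i ≠ 0 := by omega
    have h1 : ∑ x : ZMod p, x ^ i = ∑ x : (ZMod p)ˣ, ((x : ZMod p) ^ i) := by
      rw [← Finset.add_sum_erase Finset.univ _ (Finset.mem_univ (0 : ZMod p)), zero_pow hi0,
        zero_add]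
      symm
      apply Finset.sum_bij (fun (x : (ZMod p)ˣ) _ => (x : ZMod p))
      · intro x _
        simp
      · intro x _ y _ h
        exact Units.ext h
      · intro y hy
        simp only [Finset.mem_erase, Finset.mem_univ, and_true] at hy
        exact ⟨Units.mk0 y hy, Finset.mem_univ _, rfl⟩
      · intro x _
        rfl
    rw [h1, FiniteField.sum_pow_units, hcard]
    split_ifs with h2 h3 h3
    · rfl
    · exfalso
      obtain ⟨c, hc⟩ := h2
      have : c = 1 := by
        have hc1 : c < 2 := by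
          by_contra hcc
          have : (p - 1) * 2 ≤ (p - 1) * c := Nat.mul_le_mul_left _ (by omega)
          omega
        have hc0 : c ≠ 0 := by
          rintro rfl
          omega
        omega
      rw [this, mul_one] at hc
      exact h3 hc
    · exact absurd ⟨1, by omega⟩ h2
    · rfl

lemma sum_eval (p : ℕ) [Fact p.Prime] (h : (ZMod p)[X]) (hd : h.natDegree < 2 * (p - 1)) :
    ∑ x : ZMod p, h.eval x = - h.coeff (p - 1) := by
  have h1 : ∀ x : ZMod p, h.eval x = ∑ i ∈ range (2 * (p - 1)), h.coeff i * x ^ i := by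
    intro x
    rw [eval_eq_sum_range' hd]
  simp_rw [h1]
  rw [Finset.sum_comm]
  have hp : p.Prime := Fact.out
  have hp2 : 2 ≤ p := hp.two_le
  have h2 : ∀ i ∈ range (2 * (p - 1)), ∑ x : ZMod p, h.coeff i * x ^ i =
      if i = p - 1 then - h.coeff i else 0 := by
    intro i hi
    rw [Finset.mem_range] at hi
    rw [← Finset.mul_sum, sum_pow_card_sub_one p i hi]
    split_ifs <;> ring
  rw [Finset.sum_congr rfl h2, Finset.sum_ite_eq', if_pos]
  rw [Finset.mem_range]
  omega

/-! ### The character sum -/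

/-- The character sum `∑ χ(x (x² + a x + b))`. -/
noncomputable def S (p : ℕ) [Fact p.Prime] (a b : ZMod p) : ℤ :=
  ∑ x : ZMod p, quadraticChar (ZMod p) (x * (x ^ 2 + a * x + b))

lemma cast_S (p : ℕ) [Fact p.Prime] (hp2 : p ≠ 2) (a b : ZMod p) :
    ((S p a b : ℤ) : ZMod p) = - A ((p - 1) / 2) a b := by
  have hp : p.Prime := Fact.out
  have hodd : p % 2 = 1 := hp.eq_two_or_odd.resolve_left hp2
  have hp3 : 3 ≤ p := by
    have := hp.two_le
    omega
  set N := (p - 1) / 2 with hN
  have h2N : 2 * N = p - 1 := by omega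
  have hdiv : p / 2 = N := by omega
  rw [S, Int.cast_sum]
  have h1 : ∀ x : ZMod p, ((quadraticChar (ZMod p) (x * (x ^ 2 + a * x + b)) : ℤ) : ZMod p) =
      ((X * (X ^ 2 + C a * X + C b)) ^ N : (ZMod p)[X]).eval x := by
    intro x
    rw [quadraticChar_eq_pow_of_char_ne_two' (by rw [ZMod.ringChar_zmod_n]; exact hp2),
      ZMod.card, hdiv]
    simp
  simp_rw [h1]
  rw [sum_eval, ← h2N, coeff_cubic_pow]
  have h3 : (X * (X ^ 2 + C a * X + C b) : (ZMod p)[X]).natDegree ≤ 3 := by
    compute_degree
  calc ((X * (X ^ 2 + C a * X + C b)) ^ N : (ZMod p)[X]).natDegree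
      ≤ N * 3 := natDegree_pow_le_of_le _ h3
    _ < 2 * (p - 1) := by omega

lemma S_isogeny (p : ℕ) [Fact p.Prime] (hp2 : p ≠ 2) (a b : ZMod p) (hb : b ≠ 0) :
    S p a b = S p (-2 * a) (a ^ 2 - 4 * b) := by
  have hchar : ringChar (ZMod p) ≠ 2 := by rw [ZMod.ringChar_zmod_n]; exact hp2
  have h2 : (2 : ZMod p) ≠ 0 := Ring.two_ne_zero hchar
  -- left side
  have hL : S p a b = ∑ x ∈ Finset.univ.erase (0 : ZMod p),
      quadraticChar (ZMod p) (x + a + b / x) := by
    rw [S, ← Finset.add_sum_erase Finset.univ _ (Finset.mem_univ (0 : ZMod p))]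
    simp only [zero_mul, MulChar.map_zero, zero_add]
    apply Finset.sum_congr rfl
    intro x hx
    rw [Finset.mem_erase] at hx
    have hx0 := hx.1
    have : x * (x ^ 2 + a * x + b) = x ^ 2 * (x + a + b / x) := by
      field_simp
    rw [this, map_mul, quadraticChar_sq_one' hx0, one_mul]
  have hL2 : S p a b = ∑ z : ZMod p, quadraticChar (ZMod p) z *
      (#{x ∈ Finset.univ.erase (0 : ZMod p) | x + a + b / x = z} : ℤ) := by
    rw [hL]
    have : ∀ x ∈ Finset.univ.erase (0 : ZMod p), quadraticChar (ZMod p) (x + a + b / x) =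
        ∑ z : ZMod p, if x + a + b / x = z then quadraticChar (ZMod p) z else 0 := by
      intro x _
      rw [Finset.sum_ite_eq]
      simp
    rw [Finset.sum_congr rfl this, Finset.sum_comm]
    apply Finset.sum_congr rfl
    intro z _
    rw [← Finset.sum_filter, Finset.sum_const, nsmul_eq_mul, mul_comm]
  have hcount : ∀ z : ZMod p, (#{x ∈ Finset.univ.erase (0 : ZMod p) | x + a + b / x = z} : ℤ) =
      quadraticChar (ZMod p) ((z - a) ^ 2 - 4 * b) + 1 := by
    intro z
    rw [← quadraticChar_card_sqrts hchar]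
    norm_cast
    apply Finset.card_bij (fun x _ => 2 * x + (a - z))
    · intro x hx
      simp only [Finset.mem_filter, Finset.mem_erase, Finset.mem_univ, and_true] at hx
      obtain ⟨hx0, hx1⟩ := hx
      simp only [Set.mem_toFinset, Set.mem_ofPred_eq]
      have : x ^ 2 + (a - z) * x + b = 0 := by
        rw [← hx1]
        field_simp
        ring
      linear_combination 4 * this
    · intro x _ y _ hxy
      have : 2 * x = 2 * y := by simpa using hxy
      exact mul_left_cancel₀ h2 this
    · intro y hy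
      simp only [Set.mem_toFinset, Set.mem_ofPred_eq] at hy
      refine ⟨(y - (a - z)) / 2, ?_, ?_⟩
      · simp only [Finset.mem_filter, Finset.mem_erase, Finset.mem_univ, and_true]
        set x := (y - (a - z)) / 2 with hx
        have hy2 : y = 2 * x + (a - z) := by
          rw [hx]
          field_simp
          ring
        have h3 : 4 * (x ^ 2 + (a - z) * x + b) = 0 := by
          rw [hy2] at hy
          linear_combination hy
        have h4 : x ^ 2 + (a - z) * x + b = 0 := by
          have h44 : (4 : ZMod p) ≠ 0 := by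
            have : (4 : ZMod p) = 2 * 2 := by norm_num
            rw [this]
            exact mul_ne_zero h2 h2
          exact (mul_eq_zero.mp h3).resolve_left h44
        have hx0 : x ≠ 0 := by
          intro h0
          rw [h0] at h4
          apply hb
          simpa using h4
        refine ⟨hx0, ?_⟩
        field_simp
        linear_combination h4
      · field_simp
        ring
  rw [hL2]
  simp_rw [hcount, mul_add, mul_one, Finset.sum_add_distrib, quadraticChar_sum_zero hchar,
    add_zero, S]
  apply Finset.sum_congr rfl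
  intro z _
  rw [← map_mul]
  congr 1
  ring

lemma A_isogeny_zmod (p : ℕ) [Fact p.Prime] (hp2 : p ≠ 2) (a b : ZMod p) (hb : b ≠ 0) :
    A ((p - 1) / 2) a b = A ((p - 1) / 2) (-2 * a) (a ^ 2 - 4 * b) := by
  have h := S_isogeny p hp2 a b hb
  have h1 := congrArg (fun z : ℤ => (z : ZMod p)) h
  simp only [cast_S p hp2] at h1
  exact neg_inj.mp h1


/-! ### Extension of the isogeny identity to a larger field -/

section ext

variable {K : Type*} [Field K] (p : ℕ) [Fact p.Prime] [Algebra (ZMod p) K]

/-- `A` evaluated at polynomials. -/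
lemma eval_A {R : Type*} [CommRing R] (N : ℕ) (f g : R[X]) (r : R) :
    (A N f g).eval r = A N (f.eval r) (g.eval r) := by
  simp [A, eval_finsetSum]

lemma natDegree_A_le {R : Type*} [CommRing R] (N d e : ℕ) (f g : R[X]) (hf : f.natDegree ≤ d)
    (hg : g.natDegree ≤ e) (h : e ≤ 2 * d) : (A N f g).natDegree ≤ N * d := by
  unfold A
  apply natDegree_sum_le_of_forall_le
  intro k _
  by_cases hk : 2 * k ≤ N
  · have h1 : (f ^ (N - 2 * k)).natDegree ≤ (N - 2 * k) * d := natDegree_pow_le_of_le _ hf
    have h2 : (g ^ k).natDegree ≤ k * e := natDegree_pow_le_of_le _ hg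
    have h3 : ((((N.choose (2 * k) * (2 * k).choose k : ℕ) : R[X]) * f ^ (N - 2 * k)) *
        g ^ k).natDegree ≤ (0 + (N - 2 * k) * d) + k * e :=
      natDegree_mul_le_of_le (natDegree_mul_le_of_le (natDegree_natCast _).le h1) h2
    refine h3.trans ?_
    have h4 : k * e ≤ k * (2 * d) := Nat.mul_le_mul_left _ h
    have h5 : (N - 2 * k) * d + k * (2 * d) = N * d := by
      have : (N - 2 * k) + 2 * k = N := by omega
      calc (N - 2 * k) * d + k * (2 * d) = ((N - 2 * k) + 2 * k) * d := by ring
        _ = N * d := by rw [this]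
    omega
  · rw [Nat.choose_eq_zero_of_lt (by omega : N < 2 * k)]
    simp

lemma A_isogeny (hp2 : p ≠ 2) (a b : K) :
    A ((p - 1) / 2) a b = A ((p - 1) / 2) (-2 * a) (a ^ 2 - 4 * b) := by
  classical
  have hp : p.Prime := Fact.out
  have hodd : p % 2 = 1 := hp.eq_two_or_odd.resolve_left hp2
  have hp3 : 3 ≤ p := by
    have := hp.two_le
    omega
  set N := (p - 1) / 2 with hN
  have hinj : Function.Injective (algebraMap (ZMod p) K) := (algebraMap (ZMod p) K).injective
  -- step 1 : `b` in the prime field, `a` arbitrary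
  have step1 : ∀ (b : ZMod p), b ≠ 0 → ∀ a : K,
      A N a (algebraMap (ZMod p) K b) = A N (-2 * a) (a ^ 2 - 4 * algebraMap (ZMod p) K b) := by
    intro b hb a
    have hpoly : (A N (X : (ZMod p)[X]) (C b)) = A N (-2 * X) (X ^ 2 - 4 * C b) := by
      apply eq_of_natDegree_lt_card_of_eval_eq (f := (id : ZMod p → ZMod p)) _ _
        Function.injective_id
      · intro r
        rw [eval_A, eval_A]
        simpa using A_isogeny_zmod p hp2 r b hb
      · rw [ZMod.card]
        have h1 : (A N (X : (ZMod p)[X]) (C b)).natDegree ≤ N * 1 := by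
          apply natDegree_A_le N 1 0
          · exact natDegree_X_le
          · simp
          · omega
        have h2 : (A N (-2 * X : (ZMod p)[X]) (X ^ 2 - 4 * C b)).natDegree ≤ N * 1 := by
          apply natDegree_A_le N 1 2
          · compute_degree
          · compute_degree
          · omega
        have h3 : N * 1 < p := by omega
        exact max_lt (lt_of_le_of_lt h1 h3) (lt_of_le_of_lt h2 h3)
    have h1 : (eval₂RingHom (algebraMap (ZMod p) K) a) (A N (X : (ZMod p)[X]) (C b)) =
        (eval₂RingHom (algebraMap (ZMod p) K) a) (A N (-2 * X) (X ^ 2 - 4 * C b)) := by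
      rw [hpoly]
    rw [map_A, map_A] at h1
    simpa using h1
  -- step 2
  have hpoly : (A N (C a : K[X]) X) = A N (-2 * C a) ((C a) ^ 2 - 4 * X) := by
    apply eq_of_natDegree_lt_card_of_eval_eq
      (f := fun u : {u : ZMod p // u ≠ 0} => algebraMap (ZMod p) K u.1) _ _
    · intro u v huv
      exact Subtype.ext (hinj huv)
    · rintro ⟨u, hu⟩
      rw [eval_A, eval_A]
      simpa using step1 u hu a
    · have hcard : Fintype.card {u : ZMod p // u ≠ 0} = p - 1 := by
        rw [Fintype.card_subtype_compl, ZMod.card]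
        simp
      rw [hcard]
      have h1 : (A N (C a : K[X]) X).natDegree ≤ N * 1 := by
        apply natDegree_A_le N 1 1
        · simp
        · exact natDegree_X_le
        · omega
      have h2 : (A N (-2 * C a : K[X]) ((C a) ^ 2 - 4 * X)).natDegree ≤ N * 1 := by
        apply natDegree_A_le N 1 1
        · compute_degree
          omega
        · compute_degree
        · omega
      have h3 : N * 1 < p - 1 := by omega
      exact max_lt (lt_of_le_of_lt h1 h3) (lt_of_le_of_lt h2 h3)
  have h1 : eval b (A N (C a : K[X]) X) = eval b (A N (-2 * C a) ((C a) ^ 2 - 4 * X)) := by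
    rw [hpoly]
  rw [eval_A, eval_A] at h1
  simpa using h1

end ext

/-! ### Complex multiplication by `√-7` : vanishing -/

lemma A_eq_zero (p : ℕ) [Fact p.Prime] (h7 : ¬ IsSquare (-7 : ZMod p)) :
    A ((p - 1) / 2) (21 : ZMod p) 112 = 0 := by
  have hp : p.Prime := Fact.out
  have hp2 : p ≠ 2 := by
    rintro rfl
    exact h7 ⟨1, by rfl⟩
  have hodd : p % 2 = 1 := hp.eq_two_or_odd.resolve_left hp2
  have hp3 : 3 ≤ p := by
    have := hp.two_le
    omega
  set N := (p - 1) / 2 with hN
  have h2N : 2 * N = p - 1 := by omega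
  obtain ⟨K, instF, instA, instC⟩ : ∃ (K : Type) (_ : Field K) (_ : Algebra (ZMod p) K),
      IsAlgClosed K :=
    ⟨AlgebraicClosure (ZMod p), inferInstance, inferInstance, inferInstance⟩
  have hCharP : CharP K p := charP_of_injective_algebraMap (algebraMap (ZMod p) K).injective p
  have h2K : (2 : K) ≠ 0 := by
    have := (CharP.cast_eq_zero_iff K p 2)
    intro h
    have h3 : p ∣ 2 := this.mp (by exact_mod_cast h)
    have := Nat.le_of_dvd (by norm_num) h3
    omega
  -- a root of `X² - X + 2`
  obtain ⟨α, hα⟩ : ∃ α : K, α ^ 2 = α - 2 := by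
    obtain ⟨s, hs⟩ := IsAlgClosed.exists_pow_nat_eq (-7 : K) (n := 2) (by norm_num)
    have hi : (2 : K) * (2 : K)⁻¹ = 1 := mul_inv_cancel₀ h2K
    refine ⟨(1 + s) * (2 : K)⁻¹, ?_⟩
    linear_combination ((2 : K)⁻¹) ^ 2 * hs + ((s - 3) * (2 : K)⁻¹ - 2) * hi
  -- Frobenius of `α`
  have hfrob : (α ^ p) ^ 2 = α ^ p - 2 := by
    have h1 : (α ^ 2) ^ p = (α - 2) ^ p := by rw [hα]
    rw [sub_pow_char] at h1
    have h2 : (2 : K) ^ p = 2 := by
      have h3 : ((2 : ZMod p)) ^ p = 2 := ZMod.pow_card 2
      have h4 := congrArg (algebraMap (ZMod p) K) h3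
      rw [map_pow, map_ofNat] at h4
      exact h4
    rw [h2] at h1
    rw [← h1]
    ring
  have hne : α ^ p ≠ α := by
    intro h
    -- then `α` lies in the prime field
    have hmem : ∃ r : ZMod p, algebraMap (ZMod p) K r = α := by
      by_contra hcon
      push Not at hcon
      have hz : (X ^ p - X : K[X]) = 0 := by
        apply eq_zero_of_natDegree_lt_card_of_eval_eq_zero
          (f := fun u : Option (ZMod p) => u.elim α (fun r => algebraMap (ZMod p) K r))
        · intro u v huv
          match u, v with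
          | none, none => rfl
          | none, some v => exact absurd huv.symm (hcon v)
          | some u, none => exact absurd huv (hcon u)
          | some u, some v =>
            exact congrArg some ((algebraMap (ZMod p) K).injective huv)
        · intro u
          match u with
          | none => simp [h]
          | some r =>
            simp only [Option.elim, eval_sub, eval_pow, eval_X]
            rw [← map_pow, ZMod.pow_card, sub_self]
        · rw [Fintype.card_option, ZMod.card, FiniteField.X_pow_card_sub_X_natDegree_eq K hp.one_lt]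
          omega
      have := FiniteField.X_pow_card_sub_X_natDegree_eq K hp.one_lt
      rw [hz] at this
      simp at this
      omega
    obtain ⟨r, hr⟩ := hmem
    apply h7
    refine ⟨2 * r - 1, ?_⟩
    apply (algebraMap (ZMod p) K).injective
    simp only [map_neg, map_mul, map_sub, map_one, map_ofNat, hr]
    linear_combination -4 * hα
  -- the cubic `f = X (X² + 21 X + 112)` over `K`
  set f : K[X] := X * (X ^ 2 + C 21 * X + C 112) with hf
  have hdeg : f.natDegree ≤ 3 := by
    rw [hf]; compute_degree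
  have hdegN : (f ^ N).natDegree < 2 * p - 1 := by
    calc (f ^ N).natDegree ≤ N * 3 := natDegree_pow_le_of_le _ hdeg
      _ < 2 * p - 1 := by omega
  have hAf : (f ^ N).coeff (2 * N) = A N 21 112 := coeff_cubic_pow N 21 112
  -- translate by `α - 11`
  have ht1 : f.comp (X + C (α - 11)) =
      X * (X ^ 2 + C (3 * α - 12) * X + C (7 - 21 * α)) := by
    rw [hf]
    have hC : (C α : K[X]) ^ 2 = C α - 2 := by
      rw [← C_pow, hα, C_sub]
      rfl
    simp only [mul_comp, add_comp, pow_comp, X_comp, C_comp, C_sub, C_mul]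
    have e1 : (C (11 : K) : K[X]) = 11 := rfl
    have e2 : (C (12 : K) : K[X]) = 12 := rfl
    have e3 : (C (21 : K) : K[X]) = 21 := rfl
    have e4 : (C (112 : K) : K[X]) = 112 := rfl
    have e5 : (C (3 : K) : K[X]) = 3 := rfl
    have e6 : (C (7 : K) : K[X]) = 7 := rfl
    rw [e1, e2, e3, e4, e5, e6]
    linear_combination (3 * X + C α - 11 : K[X]) * hC
  have hA1 : A N (3 * α - 12) (7 - 21 * α) = A N (21 : K) 112 := by
    rw [← coeff_cubic_pow, ← ht1, ← pow_comp, h2N, coeff_comp_X_add_C p _ hdegN, ← h2N, hAf]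
  -- the isogenous cubic
  set g : K[X] := X * (X ^ 2 + C (-2 * (3 * α - 12)) * X +
    C ((3 * α - 12) ^ 2 - 4 * (7 - 21 * α))) with hg
  have hAg : (g ^ N).coeff (2 * N) = A N (21 : K) 112 := by
    rw [hg, coeff_cubic_pow, ← A_isogeny p hp2, hA1]
  have hscale : g.comp (C (α - 2) * X) = C ((α - 2) ^ 3) * f.comp (X + C (- (α + 10))) := by
    rw [hf, hg]
    have hC : (C α : K[X]) ^ 2 = C α - 2 := by
      rw [← C_pow, hα, C_sub]
      rfl
    simp only [mul_comp, add_comp, pow_comp, X_comp, C_comp]
    simp only [C_sub, C_mul, C_neg, C_add, C_pow]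
    have e1 : (C (10 : K) : K[X]) = 10 := rfl
    have e2 : (C (12 : K) : K[X]) = 12 := rfl
    have e3 : (C (21 : K) : K[X]) = 21 := rfl
    have e4 : (C (112 : K) : K[X]) = 112 := rfl
    have e5 : (C (3 : K) : K[X]) = 3 := rfl
    have e6 : (C (7 : K) : K[X]) = 7 := rfl
    have e7 : (C (2 : K) : K[X]) = 2 := rfl
    have e8 : (C (4 : K) : K[X]) = 4 := rfl
    rw [e1, e2, e3, e4, e5, e6, e7, e8]
    linear_combination (-80 + 112 * C α - 48 * C α ^ 2 + 4 * C α ^ 3 + C α ^ 4 - 148 * X
      + 92 * X * C α - 3 * X * C α ^ 2 - 3 * X * C α ^ 3 + 12 * X ^ 2 - 12 * X ^ 2 * C α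
      + 3 * X ^ 2 * C α ^ 2 : K[X]) * hC
  have hfin : A N (21 : K) 112 * (α - 2) ^ (2 * N) = (α - 2) ^ (3 * N) * A N (21 : K) 112 := by
    have h1 : ((g.comp (C (α - 2) * X)) ^ N).coeff (2 * N) =
        A N (21 : K) 112 * (α - 2) ^ (2 * N) := by
      rw [← pow_comp, comp_C_mul_X_coeff, hAg]
    have h2 : ((C ((α - 2) ^ 3) * f.comp (X + C (- (α + 10)))) ^ N).coeff (2 * N) =
        (α - 2) ^ (3 * N) * A N (21 : K) 112 := by
      rw [mul_pow, ← pow_comp, ← C_pow, coeff_C_mul, h2N, coeff_comp_X_add_C p _ hdegN, ← h2N,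
        hAf, ← pow_mul]
    rw [← h1, ← h2, hscale]
  have hα2 : α - 2 ≠ 0 := by
    intro h
    have h3 : α = 2 := by linear_combination h
    rw [h3] at hα
    apply h2K
    have : (2 : K) * 2 = 0 := by linear_combination hα
    rcases mul_eq_zero.mp this with h | h <;> exact h
  have hK : A N (21 : K) 112 = 0 := by
    by_contra hA0
    apply hne
    have h1 : (α - 2) ^ (2 * N) = (α - 2) ^ (3 * N) := by
      apply mul_left_cancel₀ hA0
      rw [hfin, mul_comm]
    have h2 : (α - 2) ^ (2 * N) * 1 = (α - 2) ^ (2 * N) * (α - 2) ^ N := by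
      rw [mul_one, ← pow_add]
      rw [h1]
      congr 1
      ring
    have h3 : (1 : K) = (α - 2) ^ N := mul_left_cancel₀ (pow_ne_zero _ hα2) h2
    rw [← hα, ← pow_mul, h2N] at h3
    calc α ^ p = α ^ (p - 1) * α := by rw [← pow_succ]; congr 1; omega
      _ = α := by rw [← h3, one_mul]
  apply (algebraMap (ZMod p) K).injective
  rw [map_A, map_ofNat, map_ofNat, map_zero]
  exact hK

end Pool.Agent.Lib.MP_3ec6ae_nt
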