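import Pool.Agent.Lib.MP_3ec6ae_nt.Sums

set_option autoImplicit false

namespace Pool.Agent.Lib.MP_3ec6ae_nt

open Finset

lemma sum_zmod_eq_range (p : ℕ) [NeZero p] (g : ZMod p → ℤ) :
    ∑ x : ZMod p, g x = ∑ k ∈ range p, g (k : ZMod p) := by
  apply Finset.sum_bij' (fun (x : ZMod p) _ => x.val) (fun (k : ℕ) _ => (k : ZMod p))
  · intro x _
    rw [Finset.mem_range]
    exact ZMod.val_lt x
  · simp
  · intro x _
    simp
  · intro k hk
    rw [Finset.mem_range] at hk
    exact ZMod.val_cast_of_lt hk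
  · intro x _
    simp

lemma sum_Ioo_eq (n : ℕ) (hn : 3 ≤ n) (F : ℕ → ℤ) (h1 : F 1 = 0) (h2 : F (n - 1) = 0) :
    ∑ k : Finset.Ioo 1 (n - 1), F k = ∑ k ∈ range n, F k - F 0 := by
  rw [Finset.sum_coe_sort (Finset.Ioo 1 (n - 1)) F]
  have h0 : (0 : ℕ) ∈ range n := by
    rw [Finset.mem_range]; omega
  rw [← Finset.add_sum_erase (range n) F h0, add_sub_cancel_left]
  apply Finset.sum_subset
  · intro k hk
    rw [Finset.mem_Ioo] at hk
    rw [Finset.mem_erase, Finset.mem_range]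
    omega
  · intro k hk hk2
    rw [Finset.mem_erase, Finset.mem_range] at hk
    rw [Finset.mem_Ioo] at hk2
    have : k = 1 ∨ k = n - 1 := by omega
    rcases this with rfl | rfl
    · exact h1
    · exact h2

lemma jacobi_eq_quadraticChar (p : ℕ) [Fact p.Prime] (a : ℤ) :
    jacobiSym a p = quadraticChar (ZMod p) (a : ZMod p) := by
  rw [← jacobiSym.legendreSym.to_jacobiSym]
  rfl

/-- The matrix of the problem. -/
noncomputable def mat (c d : ℤ) (n : ℕ) :
    Matrix (Finset.Ioo 1 (n - 1)) (Finset.Ioo 1 (n - 1)) ℤ :=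
  Matrix.of fun j k => jacobiSym ((j : ℤ) ^ 2 + c * j * k + d * (k : ℤ) ^ 2) n

lemma det_case_sq (c d : ℤ) (p m : ℕ) (hp3 : 3 ≤ p) (hpm : p ∣ m) (hm : m ≠ 0) :
    (mat c d (p * m)).det = 0 := by
  have hm3 : 3 ≤ m := le_trans hp3 (Nat.le_of_dvd (Nat.pos_of_ne_zero hm) hpm)
  have hn : 3 * m ≤ p * m := Nat.mul_le_mul_right m hp3
  have m1 : 2 ∈ Finset.Ioo 1 (p * m - 1) := by
    rw [Finset.mem_Ioo]; omega
  have m2 : 2 + m ∈ Finset.Ioo 1 (p * m - 1) := by
    rw [Finset.mem_Ioo]; omega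
  apply Matrix.det_zero_of_row_eq (i := ⟨2, m1⟩) (j := ⟨2 + m, m2⟩)
  · intro h
    have := congrArg Subtype.val h
    simp only at this
    omega
  · funext k
    simp only [mat, Matrix.of_apply]
    have hp0 : p ≠ 0 := by omega
    rw [jacobiSym.mul_right' _ hp0 hm, jacobiSym.mul_right' _ hp0 hm]
    have key : ∀ q : ℕ, q ∣ m →
        jacobiSym (((2 : ℕ) : ℤ) ^ 2 + c * (2 : ℕ) * (k : ℕ) + d * ((k : ℕ) : ℤ) ^ 2) q =
        jacobiSym (((2 + m : ℕ) : ℤ) ^ 2 + c * (2 + m : ℕ) * (k : ℕ) + d * ((k : ℕ) : ℤ) ^ 2) q := by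
      intro q hq
      apply jacobiSym.mod_left'
      apply Int.ModEq.symm
      have hq2 : (q : ℤ) ∣ (m : ℤ) := by exact_mod_cast hq
      rw [Int.modEq_iff_dvd]
      have : (((2 : ℕ) : ℤ) ^ 2 + c * (2 : ℕ) * (k : ℕ) + d * ((k : ℕ) : ℤ) ^ 2) -
          (((2 + m : ℕ) : ℤ) ^ 2 + c * (2 + m : ℕ) * (k : ℕ) + d * ((k : ℕ) : ℤ) ^ 2) =
          (m : ℤ) * (-(4 + m) - c * (k : ℕ)) := by
        push_cast
        ring
      rw [this]
      exact Dvd.dvd.mul_right hq2 _
    rw [key p hpm, key m dvd_rfl]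

lemma det_case_coprime (c d : ℤ) (p m : ℕ) [Fact p.Prime] (hp3 : 3 ≤ p) (hpm : ¬ p ∣ m)
    (hm : 2 ≤ m) (hS : S p c d = 0) : (mat c d (p * m)).det = 0 := by
  have hp : p.Prime := Fact.out
  have hp2 : p ≠ 2 := by omega
  have hn : 3 * m ≤ p * m := Nat.mul_le_mul_right m hp3
  have hm0 : (m : ZMod p) ≠ 0 := by
    rw [Ne, ZMod.natCast_eq_zero_iff]
    exact hpm
  rw [← Matrix.exists_mulVec_eq_zero_iff]
  refine ⟨fun k => if m ∣ (k : ℕ) then quadraticChar (ZMod p) ((k : ℕ) : ZMod p) else 0, ?_, ?_⟩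
  · intro h
    have m1 : m ∈ Finset.Ioo 1 (p * m - 1) := by
      rw [Finset.mem_Ioo]; omega
    have h1 := congrFun h ⟨m, m1⟩
    simp only [dvd_refl, if_true, Pi.zero_apply] at h1
    rw [quadraticChar_eq_zero_iff] at h1
    exact hm0 h1
  · funext j
    rw [Matrix.mulVec, dotProduct, Pi.zero_apply]
    simp only [mat, Matrix.of_apply]
    set F : ℕ → ℤ := fun k =>
      jacobiSym (((j : ℕ) : ℤ) ^ 2 + c * (j : ℕ) * k + d * (k : ℤ) ^ 2) (p * m) *
        (if m ∣ k then quadraticChar (ZMod p) (k : ZMod p) else 0) with hF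
    have hF1 : F 1 = 0 := by
      simp only [hF]
      rw [if_neg, mul_zero]
      intro h
      have := Nat.le_of_dvd one_pos h
      omega
    have hF2 : F (p * m - 1) = 0 := by
      simp only [hF]
      rw [if_neg, mul_zero]
      intro h
      have h2 : m ∣ p * m - (p * m - 1) := Nat.dvd_sub (Dvd.intro_left p rfl) h
      have h3 : p * m - (p * m - 1) = 1 := by omega
      rw [h3] at h2
      have := Nat.le_of_dvd one_pos h2
      omega
    have hF0 : F 0 = 0 := by
      simp [hF]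
    have := sum_Ioo_eq (p * m) (by omega) F hF1 hF2
    rw [hF0, sub_zero] at this
    rw [this]
    -- reindex
    have h3 : ∑ k ∈ range (p * m), F k = ∑ t ∈ range p, F (m * t) := by
      symm
      have hinj : Set.InjOn (fun t => m * t) (range p : Finset ℕ) := by
        intro a _ b _ hab
        exact Nat.eq_of_mul_eq_mul_left (by omega) hab
      rw [← Finset.sum_image (f := F) hinj]
      apply Finset.sum_subset
      · intro k hk
        rw [Finset.mem_image] at hk
        obtain ⟨t, ht, rfl⟩ := hk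
        rw [Finset.mem_range] at ht ⊢
        rw [mul_comm p m]
        exact Nat.mul_lt_mul_of_pos_left ht (by omega)
      · intro k hk hk2
        simp only [hF]
        rw [if_neg, mul_zero]
        rintro ⟨t, rfl⟩
        apply hk2
        rw [Finset.mem_image]
        refine ⟨t, ?_, rfl⟩
        rw [Finset.mem_range] at hk ⊢
        rw [mul_comm p m] at hk
        exact Nat.lt_of_mul_lt_mul_left hk
    rw [h3]
    have h4 : ∀ t ∈ range p, F (m * t) = jacobiSym (((j : ℕ) : ℤ) ^ 2) m *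
        (quadraticChar (ZMod p) ((((j : ℕ) : ZMod p)) ^ 2 + (c : ZMod p) * ((j : ℕ) : ZMod p) *
          ((m : ZMod p) * (t : ZMod p)) + (d : ZMod p) * ((m : ZMod p) * (t : ZMod p)) ^ 2) *
        quadraticChar (ZMod p) ((m : ZMod p) * (t : ZMod p))) := by
      intro t _
      simp only [hF]
      rw [if_pos (Dvd.intro t rfl), jacobiSym.mul_right' _ (by omega : p ≠ 0) (by omega : m ≠ 0),
        jacobi_eq_quadraticChar p]
      have h5 : jacobiSym (((j : ℕ) : ℤ) ^ 2 + c * (j : ℕ) * ((m * t : ℕ) : ℤ) +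
          d * ((m * t : ℕ) : ℤ) ^ 2) m = jacobiSym (((j : ℕ) : ℤ) ^ 2) m := by
        apply jacobiSym.mod_left'
        apply Int.ModEq.symm
        rw [Int.modEq_iff_dvd]
        have : (((j : ℕ) : ℤ) ^ 2 + c * (j : ℕ) * ((m * t : ℕ) : ℤ) +
          d * ((m * t : ℕ) : ℤ) ^ 2) - ((j : ℕ) : ℤ) ^ 2 =
          (m : ℤ) * (c * (j : ℕ) * t + d * m * t ^ 2) := by
          push_cast
          ring
        rw [this]
        exact Dvd.intro _ rfl
      rw [h5]
      push_cast
      ring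
    rw [Finset.sum_congr rfl h4, ← Finset.mul_sum]
    have h6 : ∑ t ∈ range p,
        (quadraticChar (ZMod p) ((((j : ℕ) : ZMod p)) ^ 2 + (c : ZMod p) * ((j : ℕ) : ZMod p) *
          ((m : ZMod p) * (t : ZMod p)) + (d : ZMod p) * ((m : ZMod p) * (t : ZMod p)) ^ 2) *
        quadraticChar (ZMod p) ((m : ZMod p) * (t : ZMod p))) = 0 := by
      rw [← sum_zmod_eq_range p (fun x =>
        (quadraticChar (ZMod p) ((((j : ℕ) : ZMod p)) ^ 2 + (c : ZMod p) * ((j : ℕ) : ZMod p) *
          ((m : ZMod p) * x) + (d : ZMod p) * ((m : ZMod p) * x) ^ 2) *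
        quadraticChar (ZMod p) ((m : ZMod p) * x)))]
      rw [← row_sum_mul_eq_zero p hp2 c d hS ((j : ℕ) : ZMod p)]
      apply Finset.sum_bij' (fun x _ => (m : ZMod p) * x) (fun y _ => y / (m : ZMod p))
      · simp
      · simp
      · intro x _
        field_simp
      · intro y _
        field_simp
      · intro x _
        rfl
    rw [h6, mul_zero]

lemma det_case_prime (c d : ℤ) (p : ℕ) [Fact p.Prime] (hp5 : 5 ≤ p) (hS : S p c d = 0)
    (hneg : quadraticChar (ZMod p) (-1) = 1) (hd : quadraticChar (ZMod p) (d : ZMod p) = -1)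
    (hcd : (c : ZMod p) ^ 2 - 4 * (d : ZMod p) ≠ 0) : (mat c d p).det = 0 := by
  have hp : p.Prime := Fact.out
  have hp2 : p ≠ 2 := by omega
  rw [← Matrix.exists_mulVec_eq_zero_iff]
  have hd0 : (d : ZMod p) ≠ 0 := by
    intro h
    rw [h] at hd
    simp at hd
  have hcast : (((p - 1 : ℕ) : ℕ) : ZMod p) = -1 := by
    rw [Nat.cast_sub hp.one_lt.le]
    simp
  refine ⟨fun k => 1 - quadraticChar (ZMod p) ((k : ℕ) : ZMod p), ?_, ?_⟩
  · intro h
    set k := (d : ZMod p).val with hk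
    have hkd : ((k : ℕ) : ZMod p) = d := by
      rw [hk, ZMod.natCast_val, ZMod.cast_id]
    have hkp : k < p := ZMod.val_lt _
    have hk0 : k ≠ 0 := by
      intro h0
      rw [h0] at hkd
      apply hd0
      rw [← hkd]
      simp
    have hk1 : k ≠ 1 := by
      intro h0
      rw [h0] at hkd
      rw [← hkd] at hd
      simp at hd
    have hkp1 : k ≠ p - 1 := by
      intro h0
      rw [h0, hcast] at hkd
      rw [← hkd, hneg] at hd
      norm_num at hd
    have m1 : k ∈ Finset.Ioo 1 (p - 1) := by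
      rw [Finset.mem_Ioo]; omega
    have h1 := congrFun h ⟨k, m1⟩
    simp only [Pi.zero_apply] at h1
    rw [hkd, hd] at h1
    norm_num at h1
  · funext j
    rw [Matrix.mulVec, dotProduct, Pi.zero_apply]
    simp only [mat, Matrix.of_apply]
    set F : ℕ → ℤ := fun k =>
      jacobiSym (((j : ℕ) : ℤ) ^ 2 + c * (j : ℕ) * k + d * (k : ℤ) ^ 2) p *
        (1 - quadraticChar (ZMod p) (k : ZMod p)) with hF
    have hF1 : F 1 = 0 := by
      simp [hF]
    have hF2 : F (p - 1) = 0 := by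
      simp only [hF]
      rw [hcast, hneg]
      simp
    have hj := j.2
    rw [Finset.mem_Ioo] at hj
    have hj0 : (((j : ℕ) : ℕ) : ZMod p) ≠ 0 := by
      rw [Ne, ZMod.natCast_eq_zero_iff]
      intro h
      have := Nat.le_of_dvd (by omega) h
      omega
    have hF0 : F 0 = 1 := by
      simp only [hF]
      rw [jacobi_eq_quadraticChar]
      have e : (((((j : ℕ) : ℤ) ^ 2 + c * (j : ℕ) * ((0 : ℕ) : ℤ) + d * ((0 : ℕ) : ℤ) ^ 2 : ℤ)) :
          ZMod p) = (((j : ℕ) : ZMod p)) ^ 2 := by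
        push_cast
        ring
      rw [e, quadraticChar_sq_one' hj0]
      simp
    have h3 := sum_Ioo_eq p (by omega) F hF1 hF2
    rw [hF0] at h3
    rw [h3]
    have h4 : ∀ k : ℕ, F k =
        quadraticChar (ZMod p) ((((j : ℕ) : ZMod p)) ^ 2 + (c : ZMod p) * ((j : ℕ) : ZMod p) *
          (k : ZMod p) + (d : ZMod p) * (k : ZMod p) ^ 2) -
        quadraticChar (ZMod p) ((((j : ℕ) : ZMod p)) ^ 2 + (c : ZMod p) * ((j : ℕ) : ZMod p) *
          (k : ZMod p) + (d : ZMod p) * (k : ZMod p) ^ 2) * quadraticChar (ZMod p) (k : ZMod p) := by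
      intro k
      simp only [hF]
      rw [jacobi_eq_quadraticChar]
      push_cast
      ring
    simp_rw [h4]
    rw [← sum_zmod_eq_range p (fun x =>
        quadraticChar (ZMod p) ((((j : ℕ) : ZMod p)) ^ 2 + (c : ZMod p) * ((j : ℕ) : ZMod p) *
          x + (d : ZMod p) * x ^ 2) -
        quadraticChar (ZMod p) ((((j : ℕ) : ZMod p)) ^ 2 + (c : ZMod p) * ((j : ℕ) : ZMod p) *
          x + (d : ZMod p) * x ^ 2) * quadraticChar (ZMod p) x)]
    rw [Finset.sum_sub_distrib, row_sum_mul_eq_zero p hp2 c d hS, row_sum_eq p hp2 c d hd0 hcd _ hj0,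
      hd]
    norm_num

lemma main (n : ℕ) (h4 : n % 4 = 1) (h7 : jacobiSym (n : ℤ) 7 = -1) :
    (mat 42 (-7) n).det = 0 ∧ (mat 21 112 n).det = 0 := by
  have hodd : Odd n := by
    rw [Nat.odd_iff]; omega
  have hj : jacobiSym (-7) n = -1 := by
    rw [jacobiSym.neg _ hodd, ZMod.χ₄_nat_one_mod_four h4, one_mul]
    have := jacobiSym.quadratic_reciprocity_one_mod_four' (a := 7) (b := n) (by decide) h4
    rw [show ((7 : ℤ)) = ((7 : ℕ) : ℤ) by norm_num, this]
    exact h7
  obtain ⟨p, hp, hpn, hj7⟩ := jacobiSym.eq_neg_one_at_prime_divisor_of_eq_neg_one hj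
  have hfact : Fact p.Prime := ⟨hp⟩
  have hsq : ¬ IsSquare (-7 : ZMod p) := by
    rw [jacobi_eq_quadraticChar, quadraticChar_neg_one_iff_not_isSquare] at hj7
    simpa using hj7
  have hp2 := two_ne_of_not_isSquare p hsq
  have hp3 : 3 ≤ p := by
    have := hp.two_le
    omega
  have h7z := seven_ne_zero' p hsq
  have h2z := two_ne_zero' p hsq
  have hS1 : S p ((42 : ℤ) : ZMod p) ((-7 : ℤ) : ZMod p) = 0 := by
    have := S_42_7 p hsq
    push_cast
    exact this
  have hS2 : S p ((21 : ℤ) : ZMod p) ((112 : ℤ) : ZMod p) = 0 := by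
    have := S_21_112 p hsq
    push_cast
    exact this
  obtain ⟨m, rfl⟩ := hpn
  have hm0 : m ≠ 0 := by
    rintro rfl
    simp at h4
  by_cases hpm : p ∣ m
  · exact ⟨det_case_sq 42 (-7) p m hp3 hpm hm0, det_case_sq 21 112 p m hp3 hpm hm0⟩
  by_cases hm1 : m = 1
  · subst hm1
    rw [mul_one] at h4 ⊢
    have hp5 : 5 ≤ p := by omega
    have hneg : quadraticChar (ZMod p) (-1) = 1 := by
      rw [quadraticChar_neg_one (by rw [ZMod.ringChar_zmod_n]; exact hp2), ZMod.card]
      exact ZMod.χ₄_nat_one_mod_four h4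
    have hq7 : quadraticChar (ZMod p) (-7) = -1 := quadraticChar_neg_one_iff_not_isSquare.mpr hsq
    constructor
    · apply det_case_prime 42 (-7) p hp5 hS1 hneg
      · push_cast
        exact hq7
      · push_cast
        have : (42 : ZMod p) ^ 2 - 4 * (-7) = 2 ^ 8 * 7 := by norm_num
        rw [this]
        exact mul_ne_zero (pow_ne_zero _ h2z) h7z
    · apply det_case_prime 21 112 p hp5 hS2 hneg
      · have e : ((112 : ℤ) : ZMod p) = (-1) * ((-7) * (2 ^ 2) ^ 2) := by
          push_cast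
          norm_num
        rw [e, map_mul, map_mul, hneg, hq7, quadraticChar_sq_one' (pow_ne_zero _ h2z)]
        norm_num
      · push_cast
        have : (21 : ZMod p) ^ 2 - 4 * 112 = - 7 := by norm_num
        rw [this]
        exact neg_ne_zero.mpr h7z
  · exact ⟨det_case_coprime 42 (-7) p m hp3 hpm (by omega) hS1,
      det_case_coprime 21 112 p m hp3 hpm (by omega) hS2⟩

end Pool.Agent.Lib.MP_3ec6ae_nt
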