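import Pool.Agent.Lib.MP_3ec6ae_nt.CM

set_option autoImplicit false

namespace Pool.Agent.Lib.MP_3ec6ae_nt

open Finset

lemma two_ne_of_not_isSquare (p : ℕ) [Fact p.Prime] (h7 : ¬ IsSquare (-7 : ZMod p)) : p ≠ 2 := by
  rintro rfl
  exact h7 ⟨1, by rfl⟩

lemma seven_ne_zero' (p : ℕ) [Fact p.Prime] (h7 : ¬ IsSquare (-7 : ZMod p)) :
    (7 : ZMod p) ≠ 0 := by
  intro h
  apply h7
  refine ⟨0, ?_⟩
  rw [mul_zero, neg_eq_zero]
  exact h

lemma two_ne_zero' (p : ℕ) [Fact p.Prime] (h7 : ¬ IsSquare (-7 : ZMod p)) :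
    (2 : ZMod p) ≠ 0 :=
  Ring.two_ne_zero (by rw [ZMod.ringChar_zmod_n]; exact two_ne_of_not_isSquare p h7)

lemma S_21_112 (p : ℕ) [Fact p.Prime] (h7 : ¬ IsSquare (-7 : ZMod p)) : S p 21 112 = 0 := by
  have hp : p.Prime := Fact.out
  have hp2 := two_ne_of_not_isSquare p h7
  have h1 : ((S p 21 112 : ℤ) : ZMod p) = 0 := by
    rw [cast_S p hp2, A_eq_zero p h7, neg_zero]
  have h2 : (p : ℤ) ∣ S p 21 112 := (ZMod.intCast_zmod_eq_zero_iff_dvd _ _).mp h1
  have h3 : |S p 21 112| < p := by
    rw [S, ← Finset.add_sum_erase Finset.univ _ (Finset.mem_univ (0 : ZMod p))]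
    simp only [zero_mul, MulChar.map_zero, zero_add]
    refine lt_of_le_of_lt (Finset.abs_sum_le_sum_abs _ _) ?_
    have h4 : ∀ x ∈ Finset.univ.erase (0 : ZMod p),
        |quadraticChar (ZMod p) (x * (x ^ 2 + 21 * x + 112))| ≤ 1 := by
      intro x _
      rcases eq_or_ne (x * (x ^ 2 + 21 * x + 112)) 0 with h | h
      · rw [h]; simp
      · rcases quadraticChar_dichotomy h with h | h <;> rw [h] <;> simp
    refine lt_of_le_of_lt (Finset.sum_le_card_nsmul _ _ 1 h4) ?_
    rw [Finset.card_erase_of_mem (Finset.mem_univ _), Finset.card_univ, ZMod.card]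
    have := hp.pos
    rw [nsmul_eq_mul, mul_one]
    have : p - 1 < p := by omega
    exact_mod_cast this
  exact Int.eq_zero_of_abs_lt_dvd h2 h3

lemma S_neg (p : ℕ) [Fact p.Prime] (a b : ZMod p) :
    S p (-a) b = quadraticChar (ZMod p) (-1) * S p a b := by
  rw [S, S, Finset.mul_sum]
  apply Fintype.sum_equiv (Equiv.neg (ZMod p))
  intro x
  rw [← map_mul]
  congr 1
  simp only [Equiv.neg_apply]
  ring

lemma S_42_7 (p : ℕ) [Fact p.Prime] (h7 : ¬ IsSquare (-7 : ZMod p)) : S p 42 (-7) = 0 := by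
  have hp2 := two_ne_of_not_isSquare p h7
  have h2 := two_ne_zero' p h7
  have h77 := seven_ne_zero' p h7
  have hb : (112 : ZMod p) ≠ 0 := by
    have : (112 : ZMod p) = 2 ^ 4 * 7 := by norm_num
    rw [this]
    exact mul_ne_zero (pow_ne_zero _ h2) h77
  have h3 := S_isogeny p hp2 21 112 hb
  rw [S_21_112 p h7] at h3
  have h4 : S p (-(42 : ZMod p)) (-7) = 0 := by
    rw [h3]
    congr 1 <;> ring
  rw [S_neg] at h4
  rcases mul_eq_zero.mp h4 with h5 | h5
  · rw [quadraticChar_eq_zero_iff] at h5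
    exact absurd h5 (neg_ne_zero.mpr one_ne_zero)
  · exact h5

/-- Row form of the vanishing. -/
lemma row_sum_mul_eq_zero (p : ℕ) [Fact p.Prime] (hp2 : p ≠ 2) (c d : ZMod p) (hS : S p c d = 0)
    (j : ZMod p) :
    ∑ k : ZMod p, quadraticChar (ZMod p) (j ^ 2 + c * j * k + d * k ^ 2) *
      quadraticChar (ZMod p) k = 0 := by
  have hchar : ringChar (ZMod p) ≠ 2 := by rw [ZMod.ringChar_zmod_n]; exact hp2
  rcases eq_or_ne j 0 with rfl | hj
  · have : ∀ k : ZMod p, quadraticChar (ZMod p) (0 ^ 2 + c * 0 * k + d * k ^ 2) *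
      quadraticChar (ZMod p) k = quadraticChar (ZMod p) d * quadraticChar (ZMod p) k := by
      intro k
      rcases eq_or_ne k 0 with rfl | hk
      · simp
      · have : (0 ^ 2 + c * 0 * k + d * k ^ 2 : ZMod p) = d * k ^ 2 := by ring
        rw [this, map_mul, quadraticChar_sq_one' hk, mul_one]
    simp_rw [this]
    rw [← Finset.mul_sum, quadraticChar_sum_zero hchar, mul_zero]
  · rw [← Finset.add_sum_erase Finset.univ _ (Finset.mem_univ (0 : ZMod p))]
    rw [MulChar.map_zero, mul_zero, zero_add]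
    have h1 : ∑ k ∈ Finset.univ.erase (0 : ZMod p),
        quadraticChar (ZMod p) (j ^ 2 + c * j * k + d * k ^ 2) * quadraticChar (ZMod p) k =
        ∑ x ∈ Finset.univ.erase (0 : ZMod p), quadraticChar (ZMod p) j *
          quadraticChar (ZMod p) (x * (x ^ 2 + c * x + d)) := by
      apply Finset.sum_bij' (fun k _ => j / k) (fun x _ => j / x)
      · intro k hk
        simp only [Finset.mem_erase, Finset.mem_univ, and_true] at hk ⊢
        exact div_ne_zero hj hk
      · intro k hk
        simp only [Finset.mem_erase, Finset.mem_univ, and_true] at hk ⊢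
        exact div_ne_zero hj hk
      · intro k hk
        simp only [Finset.mem_erase, Finset.mem_univ, and_true] at hk
        field_simp
      · intro k hk
        simp only [Finset.mem_erase, Finset.mem_univ, and_true] at hk
        field_simp
      · intro k hk
        simp only [Finset.mem_erase, Finset.mem_univ, and_true] at hk
        rw [← map_mul, ← map_mul]
        have e1 : j * (j / k * ((j / k) ^ 2 + c * (j / k) + d)) =
            (j / k ^ 2) ^ 2 * ((j ^ 2 + c * j * k + d * k ^ 2) * k) := by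
          field_simp
        rw [e1, map_mul (quadraticChar (ZMod p)) ((j / k ^ 2) ^ 2),
          quadraticChar_sq_one' (div_ne_zero hj (pow_ne_zero 2 hk)), one_mul]
    rw [h1, ← Finset.mul_sum]
    have h2 : ∑ x ∈ Finset.univ.erase (0 : ZMod p),
          quadraticChar (ZMod p) (x * (x ^ 2 + c * x + d)) = 0 := by
      rw [← hS, S, ← Finset.add_sum_erase Finset.univ _ (Finset.mem_univ (0 : ZMod p))]
      simp
    rw [h2, mul_zero]

/-- `∑ χ(y² - D) = -1`. -/
lemma sum_sq_sub (p : ℕ) [Fact p.Prime] (hp2 : p ≠ 2) (D : ZMod p) (hD : D ≠ 0) :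
    ∑ y : ZMod p, quadraticChar (ZMod p) (y ^ 2 - D) = -1 := by
  have hchar : ringChar (ZMod p) ≠ 2 := by rw [ZMod.ringChar_zmod_n]; exact hp2
  have h2 : (2 : ZMod p) ≠ 0 := Ring.two_ne_zero hchar
  have h1 : ∑ y : ZMod p, (quadraticChar (ZMod p) (y ^ 2 - D) + 1) = (p : ℤ) - 1 := by
    have h3 : ∀ y : ZMod p, (quadraticChar (ZMod p) (y ^ 2 - D) + 1 : ℤ) =
        ((#{w : ZMod p | w ^ 2 = y ^ 2 - D} : ℕ) : ℤ) := by
      intro y
      rw [← quadraticChar_card_sqrts hchar]
      norm_cast
      congr 1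
      ext w
      simp
    simp_rw [h3]
    rw [← Nat.cast_sum, ← Finset.card_sigma]
    have h4 : #(Finset.univ.sigma fun y : ZMod p => ({w : ZMod p | w ^ 2 = y ^ 2 - D} : Finset _))
        = #(Finset.univ.erase (0 : ZMod p)) := by
      apply Finset.card_bij' (fun (q : (_ : ZMod p) × ZMod p) _ => q.1 - q.2)
        (fun u _ => (⟨(u + D / u) / 2, (D / u - u) / 2⟩ : (_ : ZMod p) × ZMod p))
      · rintro ⟨y, w⟩ hq
        simp only [Finset.mem_sigma, Finset.mem_univ, true_and, Finset.mem_filter,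
          Finset.mem_erase, and_true] at hq ⊢
        intro h
        have : y = w := by linear_combination h
        rw [this] at hq
        apply hD
        linear_combination hq
      · intro u hu
        simp only [Finset.mem_sigma, Finset.mem_univ, true_and, Finset.mem_filter,
          Finset.mem_erase, and_true] at hu ⊢
        field_simp
        ring
      · rintro ⟨y, w⟩ hq
        simp only [Finset.mem_sigma, Finset.mem_univ, true_and, Finset.mem_filter] at hq
        have hyw : y - w ≠ 0 := by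
          intro h
          have : y = w := by linear_combination h
          rw [this] at hq
          apply hD
          linear_combination hq
        have hDw : D / (y - w) = y + w := by
          rw [div_eq_iff hyw]
          linear_combination hq
        simp only [hDw]
        congr 1
        · field_simp
          ring
        · have : (y + w - (y - w)) / 2 = w := by
            field_simp
            ring
          rw [this]
      · intro u hu
        simp only [Finset.mem_erase, Finset.mem_univ, and_true] at hu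
        field_simp
        ring
    rw [h4, Finset.card_erase_of_mem (Finset.mem_univ _), Finset.card_univ, ZMod.card]
    have : 1 ≤ p := (Fact.out : p.Prime).one_lt.le
    push_cast [Nat.cast_sub this]
    ring
  rw [Finset.sum_add_distrib] at h1
  simp only [Finset.sum_const, Finset.card_univ, ZMod.card, nsmul_eq_mul, mul_one] at h1
  linarith

lemma row_sum_eq (p : ℕ) [Fact p.Prime] (hp2 : p ≠ 2) (c d : ZMod p) (hd : d ≠ 0)
    (hcd : c ^ 2 - 4 * d ≠ 0) (j : ZMod p) (hj : j ≠ 0) :
    ∑ k : ZMod p, quadraticChar (ZMod p) (j ^ 2 + c * j * k + d * k ^ 2) =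
      - quadraticChar (ZMod p) d := by
  have hchar : ringChar (ZMod p) ≠ 2 := by rw [ZMod.ringChar_zmod_n]; exact hp2
  have h2 : (2 : ZMod p) ≠ 0 := Ring.two_ne_zero hchar
  have hD : j ^ 2 * (c ^ 2 - 4 * d) ≠ 0 := mul_ne_zero (pow_ne_zero 2 hj) hcd
  have h1 : ∀ k : ZMod p, quadraticChar (ZMod p) (j ^ 2 + c * j * k + d * k ^ 2) =
      quadraticChar (ZMod p) d *
        quadraticChar (ZMod p) ((2 * d * k + c * j) ^ 2 - j ^ 2 * (c ^ 2 - 4 * d)) := by
    intro k
    have e1 : d * ((2 * d * k + c * j) ^ 2 - j ^ 2 * (c ^ 2 - 4 * d)) =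
        (2 * d) ^ 2 * (j ^ 2 + c * j * k + d * k ^ 2) := by ring
    rw [← map_mul, e1, map_mul, quadraticChar_sq_one' (mul_ne_zero h2 hd), one_mul]
  simp_rw [h1]
  rw [← Finset.mul_sum]
  have h3 : ∑ k : ZMod p, quadraticChar (ZMod p)
      ((2 * d * k + c * j) ^ 2 - j ^ 2 * (c ^ 2 - 4 * d)) =
      ∑ y : ZMod p, quadraticChar (ZMod p) (y ^ 2 - j ^ 2 * (c ^ 2 - 4 * d)) := by
    apply Finset.sum_bij' (fun k _ => 2 * d * k + c * j) (fun y _ => (y - c * j) / (2 * d))
    · simp
    · simp
    · intro k _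
      field_simp
      ring
    · intro y _
      field_simp
      ring
    · intro k _
      rfl
  rw [h3, sum_sq_sub p hp2 _ hD]
  ring

end Pool.Agent.Lib.MP_3ec6ae_nt
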